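import Mathlib
import Pool.Agent.W670.TL.Defs

set_option autoImplicit false

namespace Pool.Agent.W671.TL

open NumberField Pool.Agent.W670.TL

/-- Hermite: finitely many subfields of bounded discriminant. -/
theorem her : S_HER := by
  intro Y
  apply ((NumberField.finite_of_discr_bdd (AlgebraicClosure ℚ) ⌈Y⌉₊).image Subtype.val).subset
  rintro M ⟨hM, hd⟩
  refine ⟨⟨M, @NumberField.to_finiteDimensional _ _ hM⟩, ?_, rfl⟩
  show |discr M| ≤ ((⌈Y⌉₊ : ℕ) : ℤ)
  have h1 : |(discr M : ℝ)| ≤ ((⌈Y⌉₊ : ℕ) : ℝ) := hd.trans (Nat.le_ceil Y)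
  exact_mod_cast h1

end Pool.Agent.W671.TL
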